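import Pool.Agent.J4H63.KS.Stm
import Pool.Agent.J4H31.SP.Acp

set_option autoImplicit false

/-! # Project KS, pieces (ACK) and (CLK): trees of constant depth (helper16) -/

namespace Pool.Agent.J4H16.KS

open Finset Pool.Agent.J4H95.SP Pool.Agent.J4H63.KS
open Pool.Agent.J4H31.SP (congr fls tru cand cimp exi all orr andd)

/-- the number of clauses -/
theorem t_CLK : S_CLK := by
  intro k n hn
  have h1 : Fintype.card (ClK k n) ≤ ∑ i ∈ range (k + 1), (2 * n) ^ i := by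
    have h2 : Fintype.card (ClK k n)
        = (univ.filter (fun c : Finset (Fin n × Bool) => c.card ≤ k)).card :=
      Fintype.card_subtype _
    rw [h2]
    have h3 : (univ.filter (fun c : Finset (Fin n × Bool) => c.card ≤ k))
        ⊆ (range (k + 1)).biUnion (fun i => powersetCard i (univ : Finset (Fin n × Bool))) := by
      intro c hc
      rw [mem_filter] at hc
      rw [mem_biUnion]
      exact ⟨c.card, by rw [mem_range]; omega, by rw [mem_powersetCard]; exact ⟨subset_univ _, rfl⟩⟩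
    refine (card_le_card h3).trans (card_biUnion_le.trans (sum_le_sum fun i _ => ?_))
    rw [card_powersetCard]
    refine (Nat.choose_le_pow _ _).trans (Nat.pow_le_pow_left ?_ i)
    simp [mul_comm]
  refine h1.trans (Nat.geomSum_lt (by omega) (fun i hi => mem_range.1 hi)).le

section Main

variable {k n w : ℕ}

/-- a family of hypergraphs computed by trees of depth `d` -/
def GP (k n w d : ℕ) (P : (ClK k n → Bool) → Finset (Fin n × Bool) → Prop) : Prop :=
  ∀ e, AC w d (fun x => P x e)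

theorem mono' {I : Type} {d d' : ℕ} {f : (I → Bool) → Prop} (h : AC w d f) (hd : d ≤ d') :
    AC w d' f := Pool.Agent.J4H31.SP.mono h hd

theorem cst {I : Type} {d : ℕ} (hd : 2 ≤ d) (p : Prop) : AC w d (fun _ : I → Bool => p) := by
  by_cases hp : p
  · exact congr (tru hd) (fun x => by simp [hp])
  · exact congr (fls (by omega)) (fun x => by simp [hp])

theorem gp_hyp : GP k n w 1 (fun x => HyK x) := by
  intro e
  by_cases h : e.card ≤ k
  · exact congr (AC.inp 1 (⟨e, h⟩ : ClK k n)) (fun x => by simp [HyK, h])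
  · exact congr (fls (le_refl 1)) (fun x => by simp [HyK, h])

theorem gp_gam {d : ℕ} (hd : 1 ≤ d) (hM : Fintype.card (ClK k n) ≤ w) (T : Finset (Fin n × Bool))
    {H : (ClK k n → Bool) → Finset (Fin n × Bool) → Prop} (hH : GP k n w d H) {i : ℕ}
    (hi : i ≤ k) : GP k n w (d + 1) (fun x => Gam T (H x) i) := by
  intro s
  have h1 := exi hM (fun (τ : ClK k n) (x : ClK k n → Bool) =>
    (τ.1 ⊆ T ∧ τ.1.card = i ∧ Disjoint τ.1 s) ∧ H x (τ.1 ∪ s)) (fun τ => cand hd _ (hH _))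
  refine congr h1 (fun x => ?_)
  constructor
  · rintro ⟨τ, h2, h3, h4, h5⟩
    exact ⟨⟨τ, by omega⟩, ⟨h2, h3, h4⟩, h5⟩
  · rintro ⟨τ, ⟨h2, h3, h4⟩, h5⟩
    exact ⟨τ.1, h2, h3, h4, h5⟩

theorem gp_vd {d : ℕ} (hd : 1 ≤ d) (hw : 2 ≤ w) (hk : k + 1 ≤ w)
    (hM : Fintype.card (ClK k n) ≤ w) {r t b : ℕ} (hr : r ≤ k) (ht : t < r)
    (hb : Fintype.card (ClK k n) ^ b ≤ w) (T : Finset (Fin n × Bool))
    {H : (ClK k n → Bool) → Finset (Fin n × Bool) → Prop} (hH : GP k n w d H)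
    (hc : ∀ x e, H x e → e.card ≤ k) : GP k n w (d + 7) (fun x => Vd r t b T (H x)) := by
  intro s
  have e1 : AC w (d + 2) (fun x : ClK k n → Bool => ∃ i : Fin (k + 1),
      (1 ≤ i.1 ∧ i.1 ≤ t) ∧ Gam T (H x) i.1 s) :=
    exi (by simpa using hk) (fun (i : Fin (k + 1)) (x : ClK k n → Bool) =>
      (1 ≤ i.1 ∧ i.1 ≤ t) ∧ Gam T (H x) i.1 s) (fun i => cand (by omega) _
        (gp_gam hd hM T hH (by omega) s))
  have hS : Fintype.card {S : Finset (ClK k n) // S.card = b} ≤ w := by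
    refine le_trans ?_ hb
    rw [Fintype.card_finset_len]
    exact Nat.choose_le_pow _ _
  have e2 : ∀ i : ℕ, i ≤ k → AC w (d + 5) (fun x : ClK k n → Bool =>
      ∃ S : {S : Finset (ClK k n) // S.card = b}, ∀ e : ClK k n,
        e ∈ S.1 → s ⊆ e.1 ∧ Gam T (H x) i e.1) := by
    intro i hi
    refine exi hS (fun (S : {S : Finset (ClK k n) // S.card = b}) (x : ClK k n → Bool) =>
      ∀ e : ClK k n, e ∈ S.1 → s ⊆ e.1 ∧ Gam T (H x) i e.1) (fun S => ?_)
    refine all (d := d + 1) hM (fun (e : ClK k n) (x : ClK k n → Bool) =>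
      e ∈ S.1 → s ⊆ e.1 ∧ Gam T (H x) i e.1) (fun e => ?_)
    exact cimp (by omega) _ (cand (by omega) _ (gp_gam hd hM T hH hi e.1))
  have e3 : AC w (d + 6) (fun x : ClK k n → Bool => s.Nonempty ∧ ∃ i : Fin (k + 1),
      (i.1 ≤ t ∧ t + 1 ≤ s.card + i.1 ∧ s.card + i.1 < r) ∧
      ∃ S : {S : Finset (ClK k n) // S.card = b}, ∀ e : ClK k n,
        e ∈ S.1 → s ⊆ e.1 ∧ Gam T (H x) i.1 e.1) := by
    refine cand (by omega) _ ?_
    refine exi (by simpa using hk) (fun (i : Fin (k + 1)) (x : ClK k n → Bool) =>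
      (i.1 ≤ t ∧ t + 1 ≤ s.card + i.1 ∧ s.card + i.1 < r) ∧
      ∃ S : {S : Finset (ClK k n) // S.card = b}, ∀ e : ClK k n,
        e ∈ S.1 → s ⊆ e.1 ∧ Gam T (H x) i.1 e.1) (fun i => ?_)
    exact cand (by omega) _ (e2 i.1 (by omega))
  refine congr (orr hw (mono' e1 (by omega)) e3) (fun x => ?_)
  unfold Vd
  constructor
  · rintro (⟨i, h1, h2, h3⟩ | ⟨h0, i, h1, h2, h3, S, hS1, hS2⟩)
    · exact Or.inl ⟨⟨i, by omega⟩, ⟨h1, h2⟩, h3⟩
    · refine Or.inr ⟨h0, ⟨i, by omega⟩, ⟨h1, h2, h3⟩, ?_⟩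
      have hck : ∀ e ∈ S, e.card ≤ k := by
        intro e he
        obtain ⟨_, τ, _, _, _, h4⟩ := hS2 e he
        exact (card_le_card subset_union_right).trans (hc _ _ h4)
      refine ⟨⟨S.subtype (fun c => c.card ≤ k), ?_⟩, ?_⟩
      · rw [card_subtype, filter_true_of_mem hck, hS1]
      · intro e he
        exact hS2 e.1 (mem_subtype.1 he)
  · rintro (⟨i, ⟨h1, h2⟩, h3⟩ | ⟨h0, i, ⟨h1, h2, h3⟩, S, hS2⟩)
    · exact Or.inl ⟨i.1, h1, h2, h3⟩
    · refine Or.inr ⟨h0, i.1, h1, h2, h3, S.1.map (Function.Embedding.subtype _), ?_, ?_⟩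
      · rw [card_map, S.2]
      · intro e he
        rw [mem_map] at he
        obtain ⟨e', he', rfl⟩ := he
        exact hS2 e' he'

theorem gp_nx {d : ℕ} (hd : 1 ≤ d) (hw : 2 ≤ w) (hk : k + 1 ≤ w)
    (hM : Fintype.card (ClK k n) ≤ w) {r t b : ℕ} (hr : r ≤ k) (ht : t < r)
    (hb : Fintype.card (ClK k n) ^ b ≤ w) (T Y X : Finset (Fin n × Bool))
    {H : (ClK k n → Bool) → Finset (Fin n × Bool) → Prop} (hH : GP k n w d H)
    (hc : ∀ x e, H x e → e.card ≤ k) : GP k n w (d + 14) (fun x => Nx r t b T Y X (H x)) := by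
  intro e
  by_cases he : e.card ≤ k
  · have h1 : AC w (d + 11) (fun x : ClK k n → Bool => ∀ s : ClK k n, s.1 ⊆ e →
        ¬ Vd r t b T (H x) s.1) :=
      all hM (fun (s : ClK k n) (x : ClK k n → Bool) => s.1 ⊆ e → ¬ Vd r t b T (H x) s.1)
        (fun s => cimp (by omega) _ (AC.neg (gp_vd hd hw hk hM hr ht hb T hH hc s.1)))
    refine congr (andd hw (mono' (hH e) (by omega : d ≤ d + 11))
      (cand (by omega) (∀ v ∈ e, v ∉ Y ∧ v ∉ X) h1)) (fun x => ?_)
    unfold Nx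
    constructor
    · rintro ⟨h2, h3, h4⟩
      exact ⟨h2, h4, fun s hs => h3 s.1 hs⟩
    · rintro ⟨h2, h4, h3⟩
      exact ⟨h2, fun s hs => h3 ⟨s, (card_le_card hs).trans he⟩ hs, h4⟩
  · refine congr (fls (by omega)) (fun x => ?_)
    unfold Nx
    constructor
    · rintro ⟨h2, _⟩
      exact he (hc _ _ h2)
    · exact fun h => h.elim

theorem gp_ou {d : ℕ} (hd : 1 ≤ d) (hw : 2 ≤ w) (hk : k + 1 ≤ w)
    (hM : Fintype.card (ClK k n) ≤ w) (hV : Fintype.card (Fin n × Bool) ≤ w) {r t b : ℕ}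
    (hr : r ≤ k) (ht : t < r)
    (hb : Fintype.card (ClK k n) ^ b ≤ w) (T Y X : Finset (Fin n × Bool))
    {H : (ClK k n → Bool) → Finset (Fin n × Bool) → Prop} (hH : GP k n w d H)
    (hc : ∀ x e, H x e → e.card ≤ k) : GP k n w (d + 9) (fun x => Ou r t b T Y X (H x)) := by
  intro s
  unfold Ou
  refine mono' (orr (d := d + 7) hw (gp_vd hd hw hk hM hr ht hb T hH hc s) ?_) (by omega)
  refine mono' (orr (d := d + 3) hw (cst (by omega) _) ?_) (by omega)
  refine mono' (exi hV (fun (v : Fin n × Bool) (x : ClK k n → Bool) =>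
    v ∈ X ∧ v ∉ s ∧ H x (insert v s)) (fun v => cand hd _ (cand hd _ (hH _)))) (by omega)

theorem re_sub {r : ℕ} {b : ℕ → ℕ} {A : ℕ → Fin 3 → Finset (Fin n × Bool)}
    {H : Finset (Fin n × Bool) → Prop} (j : ℕ) :
    ∀ e, Re r b A H j e → H e := by
  induction j with
  | zero => exact fun e h => h
  | succ j ih => exact fun e h => ih e h.1

theorem gp_re {d : ℕ} (hd : 1 ≤ d) (hw : 2 ≤ w) (hk : k + 1 ≤ w)
    (hM : Fintype.card (ClK k n) ≤ w) {r : ℕ} {b : ℕ → ℕ} (hr : r ≤ k) (hr1 : 1 ≤ r)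
    (hb : ∀ j < r, Fintype.card (ClK k n) ^ b j ≤ w) (A : ℕ → Fin 3 → Finset (Fin n × Bool))
    {H : (ClK k n → Bool) → Finset (Fin n × Bool) → Prop} (hH : GP k n w d H)
    (hc : ∀ x e, H x e → e.card ≤ k) (j : ℕ) (hj : j ≤ r) :
    GP k n w (d + 14 * j) (fun x => Re r b A (H x) j) := by
  induction j with
  | zero => exact hH
  | succ j ih =>
    have h1 := gp_nx (d := d + 14 * j) (by omega) hw hk hM (r := r) (t := r - 1 - j)
      (b := b j) hr (by omega) (hb j (by omega)) (A j 0) (A j 1) (A j 2) (ih (by omega))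
      (fun x e h => hc x e (re_sub j e h))
    exact h1

theorem gp_out {d : ℕ} (hd : 1 ≤ d) (hw : 2 ≤ w) (hk : k + 1 ≤ w)
    (hM : Fintype.card (ClK k n) ≤ w) (hV : Fintype.card (Fin n × Bool) ≤ w) {r : ℕ}
    {b : ℕ → ℕ} (hr : r ≤ k) (hr1 : 1 ≤ r)
    (hb : ∀ j < r, Fintype.card (ClK k n) ^ b j ≤ w) (A : ℕ → Fin 3 → Finset (Fin n × Bool))
    {H : (ClK k n → Bool) → Finset (Fin n × Bool) → Prop} (hH : GP k n w d H)
    (hc : ∀ x e, H x e → e.card ≤ k) :
    GP k n w (d + 14 * r + 10) (fun x => Out r b A (H x)) := by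
  intro s
  have h1 := exi (d := d + 14 * r + 9) (show Fintype.card (Fin r) ≤ w by
      rw [Fintype.card_fin]; omega) (fun (j : Fin r) (x : ClK k n → Bool) =>
    Ou r (r - 1 - j.1) (b j.1) (A j.1 0) (A j.1 1) (A j.1 2) (Re r b A (H x) j.1) s) (fun j => by
      have h2 := gp_ou (d := d + 14 * j.1) (by omega) hw hk hM hV (r := r) (t := r - 1 - j.1)
        (b := b j.1) hr (by omega) (hb j.1 j.2) (A j.1 0) (A j.1 1) (A j.1 2)
        (gp_re hd hw hk hM hr hr1 hb A hH hc j.1 (by omega))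
        (fun x e h => hc x e (re_sub j.1 e h)) s
      exact mono' h2 (by have := j.2; omega))
  refine congr h1 (fun x => ?_)
  unfold Out
  constructor
  · rintro ⟨j, hj, h⟩
    exact ⟨⟨j, hj⟩, h⟩
  · rintro ⟨j, h⟩
    exact ⟨j.1, j.2, h⟩

/-- the depth -/
def DP : ℕ → ℕ → ℕ
  | 0, d => d
  | 1, d => d
  | r + 2, d => max (d + 14 * (r + 2)) (DP (r + 1) (d + 14 * (r + 2) + 11)) + 1

theorem gp_ps (hw : 2 ≤ w) (hk : k + 1 ≤ w)
    (hM : Fintype.card (ClK k n) ≤ w) (hV : Fintype.card (Fin n × Bool) ≤ w)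
    (b : ℕ → ℕ → ℕ) (A : ℕ → ℕ → Fin 3 → Finset (Fin n × Bool)) :
    ∀ (r : ℕ), r ≤ k → (∀ r' ≤ r, ∀ j < r', Fintype.card (ClK k n) ^ b r' j ≤ w) →
      ∀ (d : ℕ), 1 ≤ d → ∀ (P : (ClK k n → Bool) → Finset (Fin n × Bool) → Prop),
      GP k n w d P → GP k n w (DP r d) (fun x => Ps b A r (P x))
  | 0, _, _, _, _, _, hP => hP
  | 1, _, _, _, _, _, hP => hP
  | r + 2, hr, hb, d, hd, P, hP => by
    have hH : GP k n w d (fun x e => P x e ∧ e.card = r + 2) := fun e =>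
      congr (cand hd (e.card = r + 2) (hP e)) (fun x => by tauto)
    have hc : ∀ (x : ClK k n → Bool) e, (P x e ∧ e.card = r + 2) → e.card ≤ k := by
      intro x e h
      omega
    have h1 := gp_re hd hw hk hM (r := r + 2) hr (by omega) (hb (r + 2) le_rfl) (A (r + 2)) hH hc
      (r + 2) le_rfl
    have h2 := gp_out hd hw hk hM hV (r := r + 2) hr (by omega) (hb (r + 2) le_rfl) (A (r + 2))
      hH hc
    have h3 : GP k n w (d + 14 * (r + 2) + 11) (fun x s => s.card < r + 2 ∧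
        (P x s ∨ Out (r + 2) (b (r + 2)) (A (r + 2)) (fun e => P x e ∧ e.card = r + 2) s)) :=
      fun s => cand (by omega) _ (orr hw (mono' (hP s) (by omega)) (h2 s))
    have h4 := gp_ps hw hk hM hV b A (r + 1) (by omega) (fun r' hr' => hb r' (by omega)) _
      (by omega) _ h3
    intro e
    exact orr (d := max (d + 14 * (r + 2)) (DP (r + 1) (d + 14 * (r + 2) + 11))) hw
      (mono' (h1 e) (le_max_left _ _)) (mono' (h4 e) (le_max_right _ _))

end Main

/-- (ACK) -/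
theorem t_ACK : S_ACK := by
  intro k b
  set β : ℕ := ∑ r ∈ range (k + 1), ∑ j ∈ range (k + 1), b r j with hβ
  refine ⟨(k + 1) * (β + 1) + 1, DP k 1, ?_⟩
  intro n hn A q
  have h2 : 2 ≤ 2 * n := by omega
  have hcl := t_CLK k n hn
  have hexp : ∀ a, a ≤ (k + 1) * (β + 1) + 1 → (2 * n) ^ a ≤ (2 * n) ^ ((k + 1) * (β + 1) + 1) :=
    fun a ha => Nat.pow_le_pow_right (by omega) ha
  have hk1 : k + 1 ≤ (k + 1) * (β + 1) + 1 := by nlinarith
  have hbb : ∀ r' ≤ k, ∀ j < r', b r' j ≤ β := by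
    intro r' hr' j hj
    calc b r' j ≤ ∑ j ∈ range (k + 1), b r' j :=
          single_le_sum (f := fun j => b r' j) (fun _ _ => Nat.zero_le _) (by rw [mem_range]; omega)
      _ ≤ β := single_le_sum (f := fun r => ∑ j ∈ range (k + 1), b r j)
          (fun _ _ => Nat.zero_le _) (by rw [mem_range]; omega)
  have hMw : Fintype.card (ClK k n) ≤ (2 * n) ^ ((k + 1) * (β + 1) + 1) := hcl.trans (hexp _ hk1)
  have hmain := gp_ps (k := k) (n := n) (w := (2 * n) ^ ((k + 1) * (β + 1) + 1)) ?_ ?_ hMw ?_ b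
    (ext k A) k le_rfl ?_ 1 le_rfl (fun x => HyK x) gp_hyp
  · refine congr (hmain q.1) (fun x => ?_)
    unfold Sf
    simp
  · calc 2 ≤ 2 * n := h2
      _ = (2 * n) ^ 1 := (pow_one _).symm
      _ ≤ _ := hexp 1 (by omega)
  · calc k + 1 ≤ 2 ^ (k + 1) := Nat.lt_two_pow_self.le
      _ ≤ (2 * n) ^ (k + 1) := Nat.pow_le_pow_left h2 _
      _ ≤ _ := hexp _ hk1
  · calc Fintype.card (Fin n × Bool) = (2 * n) ^ 1 := by simp [mul_comm]
      _ ≤ _ := hexp 1 (by omega)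
  · intro r' hr' j hj
    calc Fintype.card (ClK k n) ^ b r' j ≤ ((2 * n) ^ (k + 1)) ^ b r' j :=
          Nat.pow_le_pow_left hcl _
      _ = (2 * n) ^ ((k + 1) * b r' j) := (pow_mul _ _ _).symm
      _ ≤ _ := hexp _ (by have := hbb r' hr' j hj; nlinarith)

end Pool.Agent.J4H16.KS
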