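import Pool.Agent.J4H63.KS.Stm
import Pool.Agent.J4H57.SP.Cnt

set_option autoImplicit false

/-! # Project KS, piece (NUMK): the number of advices (helper16) -/

namespace Pool.Agent.J4H16.KS

open Finset Pool.Agent.J4H95.SP Pool.Agent.J4H63.KS

theorem t_NUMK : S_NUMK := by
  intro k ε hε
  classical
  set P : ℕ := Fintype.card (Fin (k + 1) × Fin (k + 1) × Fin 3) with hP
  have hP1 : 1 ≤ P := Fintype.card_pos
  have hPr : (0 : ℝ) < P := by exact_mod_cast hP1
  obtain ⟨γ, hγ, h⟩ := Pool.Agent.J4H57.SP.t_CNT (ε / (2 * P)) (by positivity)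
  obtain ⟨q, hq⟩ := exists_nat_gt (1 / γ)
  have hq0 : (0 : ℝ) < q := lt_trans (by positivity) hq
  have hq1 : 1 ≤ q := by exact_mod_cast hq0
  refine ⟨q, hq1, fun n _ => ?_⟩
  have h1 := h (Fin n × Bool)
  have hV : (Fintype.card (Fin n × Bool) : ℝ) = 2 * n := by
    simp [mul_comm]
  rw [hV] at h1
  set F : Finset (Finset (Fin n × Bool)) :=
    univ.filter (fun Z : Finset (Fin n × Bool) => (Z.card : ℝ) ≤ γ * (2 * n)) with hF
  have h2 : Fintype.card {A : Fin (k + 1) × Fin (k + 1) × Fin 3 → Finset (Fin n × Bool) //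
      ∀ c, q * (A c).card ≤ Fintype.card (Fin n × Bool)} ≤ F.card ^ P := by
    have h3 : Fintype.card (Fin (k + 1) × Fin (k + 1) × Fin 3 → F) = F.card ^ P := by
      rw [Fintype.card_fun, Fintype.card_coe]
    rw [← h3]
    have h4 : ∀ (A : {A : Fin (k + 1) × Fin (k + 1) × Fin 3 → Finset (Fin n × Bool) //
      ∀ c, q * (A c).card ≤ Fintype.card (Fin n × Bool)}) c, A.1 c ∈ F := by
      intro A c
      rw [hF, mem_filter]
      refine ⟨mem_univ _, ?_⟩
      have h5 := A.2 c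
      have h6 : (q : ℝ) * ((A.1 c).card : ℝ) ≤ 2 * n := by
        rw [← hV]
        exact_mod_cast h5
      have h7 : 1 < γ * q := by
        rw [div_lt_iff₀ hγ] at hq
        linarith [mul_comm (q : ℝ) γ]
      have h8 : (0 : ℝ) ≤ (A.1 c).card := Nat.cast_nonneg _
      nlinarith
    refine Fintype.card_le_of_injective (fun A c => ⟨A.1 c, h4 A c⟩) ?_
    intro A B hAB
    apply Subtype.ext
    funext c
    have := congrFun hAB c
    simpa using congrArg Subtype.val this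
  have h9 : ((F.card : ℝ)) ^ P ≤ ((2 : ℝ) ^ (ε / (2 * P) * (2 * (n : ℝ)))) ^ P :=
    pow_le_pow_left₀ (Nat.cast_nonneg _) h1 P
  have h10 : ((2 : ℝ) ^ (ε / (2 * P) * (2 * (n : ℝ)))) ^ P = (2 : ℝ) ^ (ε * (n : ℝ)) := by
    rw [← Real.rpow_natCast, ← Real.rpow_mul (by norm_num)]
    congr 1
    field_simp
  calc (Fintype.card {A : Fin (k + 1) × Fin (k + 1) × Fin 3 → Finset (Fin n × Bool) //
      ∀ c, q * (A c).card ≤ Fintype.card (Fin n × Bool)} : ℝ) ≤ ((F.card ^ P : ℕ) : ℝ) := by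
        exact_mod_cast h2
    _ = (F.card : ℝ) ^ P := by push_cast; rfl
    _ ≤ _ := h9
    _ = _ := h10

end Pool.Agent.J4H16.KS
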